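import Pool.Agent.H32.RK.TargetsA
import Pool.Agent.H86.CV.DV

/-!
Row IDS of the board hpk_modules: sums over ideals.
-/

set_option autoImplicit false

open Finset NumberField Pool.Agent.H32.RQ Pool.Agent.H32.RK

namespace Pool.Agent.H1.RK

theorem pf_IDS (K : Type) [Field K] [NumberField K] : T_IDS K := by
  classical
  obtain ⟨C₁, hC₁⟩ := (Pool.Agent.H86.CV.pf_DV K).2
  obtain ⟨C₀, hC₀⟩ : ∃ C₀ : ℝ, C₀ = max C₁ 1 := ⟨_, rfl⟩
  have hC₀1 : 1 ≤ C₀ := by rw [hC₀]; exact le_max_right _ _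
  have hcount : ∀ (X : ℝ) (P : Finset (Ideal (𝓞 K))), 1 ≤ X →
      (∀ 𝔤 ∈ P, 𝔤 ≠ ⊥ ∧ (Ideal.absNorm 𝔤 : ℝ) ≤ X) → (P.card : ℝ) ≤ C₀ * X := by
    intro X P hX hP
    refine (hC₁ X P hX hP).1.trans ?_
    rw [hC₀]
    exact mul_le_mul_of_nonneg_right (le_max_left _ _) (by linarith)
  have htail : ∀ (n w : ℕ) (P : Finset (Ideal (𝓞 K))), 2 ≤ n → 1 ≤ w →
      (∀ 𝔤 ∈ P, w < Ideal.absNorm 𝔤) →
      ∑ 𝔤 ∈ P, 1 / (Ideal.absNorm 𝔤 : ℝ) ^ n ≤ 4 * C₀ / (w : ℝ) ^ (n - 1) := by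
    intro n w P hn hw hP
    obtain ⟨m, rfl⟩ : ∃ m, n = m + 2 := ⟨n - 2, by omega⟩
    have hw0 : (0 : ℝ) < w := by exact_mod_cast hw
    obtain ⟨g, hg⟩ : ∃ g : Ideal (𝓞 K) → ℕ, g = fun 𝔤 => Nat.log 2 (Ideal.absNorm 𝔤 / w) :=
      ⟨_, rfl⟩
    have hlo : ∀ 𝔤 ∈ P, 2 ^ g 𝔤 * w ≤ Ideal.absNorm 𝔤 := by
      intro 𝔤 h𝔤
      have h1 : Ideal.absNorm 𝔤 / w ≠ 0 := by
        have := Nat.div_pos (hP 𝔤 h𝔤).le hw
        omega
      have h2 : 2 ^ g 𝔤 ≤ Ideal.absNorm 𝔤 / w := by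
        rw [hg]
        exact Nat.pow_log_le_self 2 h1
      exact (Nat.le_div_iff_mul_le hw).mp h2
    have hup : ∀ 𝔤 ∈ P, Ideal.absNorm 𝔤 ≤ 2 ^ (g 𝔤 + 1) * w := by
      intro 𝔤 h𝔤
      have h2 : Ideal.absNorm 𝔤 / w < 2 ^ (g 𝔤 + 1) := by
        rw [hg]
        exact Nat.lt_pow_succ_log_self (by norm_num) _
      exact ((Nat.div_lt_iff_lt_mul hw).mp h2).le
    rw [← Finset.sum_fiberwise_of_maps_to (t := P.image g)
      (fun 𝔤 h𝔤 => Finset.mem_image_of_mem g h𝔤)]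
    have hfib : ∀ k ∈ P.image g, ∑ 𝔤 ∈ P with g 𝔤 = k, 1 / (Ideal.absNorm 𝔤 : ℝ) ^ (m + 2) ≤
        2 * C₀ / (w : ℝ) ^ (m + 1) * (1 / 2) ^ k := by
      intro k _
      have h1 : ∀ 𝔤 ∈ P.filter (fun 𝔤 => g 𝔤 = k), 1 / (Ideal.absNorm 𝔤 : ℝ) ^ (m + 2) ≤
          1 / ((2 : ℝ) ^ k * w) ^ (m + 2) := by
        intro 𝔤 h𝔤
        obtain ⟨h2, h3⟩ := Finset.mem_filter.mp h𝔤
        have h4 : ((2 : ℝ) ^ k * w) ≤ (Ideal.absNorm 𝔤 : ℝ) := by
          have := hlo 𝔤 h2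
          rw [h3] at this
          exact_mod_cast this
        exact one_div_le_one_div_of_le (by positivity) (by gcongr)
      have h5 : ((P.filter (fun 𝔤 => g 𝔤 = k)).card : ℝ) ≤ C₀ * ((2 : ℝ) ^ (k + 1) * w) := by
        refine hcount _ _ ?_ ?_
        · have h6 : (1 : ℝ) ≤ w := by exact_mod_cast hw
          exact one_le_mul_of_one_le_of_one_le (one_le_pow₀ (by norm_num)) h6
        · intro 𝔤 h𝔤
          obtain ⟨h2, h3⟩ := Finset.mem_filter.mp h𝔤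
          refine ⟨?_, ?_⟩
          · rintro rfl
            have := hP _ h2
            rw [Ideal.absNorm_bot] at this
            omega
          · have := hup 𝔤 h2
            rw [h3] at this
            exact_mod_cast this
      calc ∑ 𝔤 ∈ P with g 𝔤 = k, 1 / (Ideal.absNorm 𝔤 : ℝ) ^ (m + 2)
          ≤ ∑ 𝔤 ∈ P with g 𝔤 = k, 1 / ((2 : ℝ) ^ k * w) ^ (m + 2) := Finset.sum_le_sum h1
        _ = (P.filter (fun 𝔤 => g 𝔤 = k)).card * (1 / ((2 : ℝ) ^ k * w) ^ (m + 2)) := by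
            rw [Finset.sum_const, nsmul_eq_mul]
        _ ≤ C₀ * ((2 : ℝ) ^ (k + 1) * w) * (1 / ((2 : ℝ) ^ k * w) ^ (m + 2)) := by gcongr
        _ = 2 * C₀ / (w : ℝ) ^ (m + 1) * (1 / 2) ^ k * (1 / ((2 : ℝ) ^ k) ^ m) := by
            have h7 : (2 : ℝ) ^ k ≠ 0 := by positivity
            rw [mul_pow, pow_succ (2 : ℝ) k, one_div_pow, pow_add ((2 : ℝ) ^ k) m 2,
              pow_succ (w : ℝ) (m + 1)]
            field_simp
        _ ≤ 2 * C₀ / (w : ℝ) ^ (m + 1) * (1 / 2) ^ k * 1 := by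
            refine mul_le_mul_of_nonneg_left ?_ (by positivity)
            rw [div_le_one (by positivity)]
            exact one_le_pow₀ (one_le_pow₀ (by norm_num))
        _ = _ := by rw [mul_one]
    calc ∑ k ∈ P.image g, ∑ 𝔤 ∈ P with g 𝔤 = k, 1 / (Ideal.absNorm 𝔤 : ℝ) ^ (m + 2)
        ≤ ∑ k ∈ P.image g, 2 * C₀ / (w : ℝ) ^ (m + 1) * (1 / 2) ^ k := Finset.sum_le_sum hfib
      _ = 2 * C₀ / (w : ℝ) ^ (m + 1) * ∑ k ∈ P.image g, (1 / 2 : ℝ) ^ k := by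
          rw [Finset.mul_sum]
      _ ≤ 2 * C₀ / (w : ℝ) ^ (m + 1) * 2 := by
          refine mul_le_mul_of_nonneg_left ?_ (by positivity)
          exact (summable_geometric_two.sum_le_tsum _ fun k _ => by positivity).trans
            tsum_geometric_two.le
      _ = 4 * C₀ / (w : ℝ) ^ (m + 2 - 1) := by
          rw [show m + 2 - 1 = m + 1 by omega]
          ring
  refine ⟨4 * C₀ + 1, by linarith, ?_, ?_, ?_⟩
  · intro X P hX hP
    exact (hcount X P hX hP).trans (mul_le_mul_of_nonneg_right (by linarith) (by linarith))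
  · intro n w P hn hw hP
    refine (htail n w P hn hw hP).trans ?_
    have hw0 : (0 : ℝ) < w := by exact_mod_cast hw
    exact div_le_div_of_nonneg_right (by linarith) (by positivity)
  · intro n P hn hP
    rw [← Finset.sum_filter_add_sum_filter_not P (fun 𝔤 => 1 < Ideal.absNorm 𝔤)]
    have h1 := htail n 1 (P.filter (fun 𝔤 => 1 < Ideal.absNorm 𝔤)) hn le_rfl
      (fun 𝔤 h => (Finset.mem_filter.mp h).2)
    rw [Nat.cast_one, one_pow, div_one] at h1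
    have h2 : ∑ 𝔤 ∈ P with ¬ 1 < Ideal.absNorm 𝔤, 1 / (Ideal.absNorm 𝔤 : ℝ) ^ n ≤ 1 := by
      have h3 : P.filter (fun 𝔤 => ¬ 1 < Ideal.absNorm 𝔤) ⊆ {⊤} := by
        intro 𝔤 h
        obtain ⟨h4, h5⟩ := Finset.mem_filter.mp h
        have h6 : Ideal.absNorm 𝔤 ≠ 0 := fun h0 => hP 𝔤 h4 (Ideal.absNorm_eq_zero_iff.mp h0)
        rw [Finset.mem_singleton]
        exact Ideal.absNorm_eq_one_iff.mp (by omega)
      calc ∑ 𝔤 ∈ P with ¬ 1 < Ideal.absNorm 𝔤, 1 / (Ideal.absNorm 𝔤 : ℝ) ^ n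
          ≤ ∑ 𝔤 ∈ ({⊤} : Finset (Ideal (𝓞 K))), 1 / (Ideal.absNorm 𝔤 : ℝ) ^ n :=
            Finset.sum_le_sum_of_subset_of_nonneg h3 fun _ _ _ => by positivity
        _ = 1 := by
            rw [Finset.sum_singleton, Ideal.absNorm_top]
            norm_num
    linarith

end Pool.Agent.H1.RK
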