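import Pool.Agent.H32.RK.TargetsB

/-!
Row NCL of the board hpk_modules: the number of the classes.
-/

set_option autoImplicit false

open Finset NumberField Pool.Agent.H32.RQ Pool.Agent.H32.RK

namespace Pool.Agent.H1.RK

variable {K : Type} [Field K] [NumberField K]

/-- the character of `β` -/
noncomputable def fb (β : K) : 𝓞 K →+ Additive ℂ where
  toFun b := Additive.ofMul
    (Complex.exp (2 * Real.pi * Complex.I * ((Algebra.trace ℚ K (β * (b : K)) : ℚ) : ℂ)))
  map_zero' := by simp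
  map_add' a b := by
    rw [← ofMul_mul, ← Complex.exp_add]
    congr 2
    have h : ((a + b : 𝓞 K) : K) = (a : K) + (b : K) := rfl
    rw [h, mul_add, map_add, Rat.cast_add]
    ring

theorem fb_apply (β : K) (b : 𝓞 K) : (fb β b).toMul =
    Complex.exp (2 * Real.pi * Complex.I * ((Algebra.trace ℚ K (β * (b : K)) : ℚ) : ℂ)) := rfl

theorem fb_eq {β β' : K} (h : fb β = fb β') : InD (β - β') := by
  intro b
  have h1 : (fb β b).toMul = (fb β' b).toMul := by rw [h]
  rw [fb_apply, fb_apply, Complex.exp_eq_exp_iff_exists_int] at h1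
  obtain ⟨n, hn⟩ := h1
  refine ⟨n, ?_⟩
  have h2 : (2 * Real.pi * Complex.I : ℂ) ≠ 0 := Complex.two_pi_I_ne_zero
  have h3 : ((Algebra.trace ℚ K (β * (b : K)) : ℚ) : ℂ) =
      ((Algebra.trace ℚ K (β' * (b : K)) : ℚ) : ℂ) + n := by
    refine mul_left_cancel₀ h2 ?_
    rw [hn]
    ring
  have h4 : Algebra.trace ℚ K (β * (b : K)) = Algebra.trace ℚ K (β' * (b : K)) + n := by
    exact_mod_cast h3
  rw [sub_mul, map_sub, h4]
  ring

theorem pf_NCL (K : Type) [Field K] [NumberField K] : T_NCL K := by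
  classical
  intro 𝔤 S h𝔤 hS hinj
  have hidx : Ideal.absNorm 𝔤 = (Submodule.toAddSubgroup 𝔤).index := Ideal.absNorm_eq_index 𝔤
  have h0 : Ideal.absNorm 𝔤 ≠ 0 := fun h => h𝔤 (Ideal.absNorm_eq_zero_iff.mp h)
  have hfin : Finite (𝓞 K ⧸ Submodule.toAddSubgroup 𝔤) := by
    refine Nat.finite_of_card_ne_zero ?_
    rw [hidx] at h0
    exact h0
  have := Fintype.ofFinite (𝓞 K ⧸ Submodule.toAddSubgroup 𝔤)
  have hker : ∀ β ∈ S, Submodule.toAddSubgroup 𝔤 ≤ (fb β).ker := by
    intro β hβ g hg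
    obtain ⟨n, hn⟩ := hS β hβ g hg 1
    rw [AddMonoidHom.mem_ker]
    change Additive.ofMul _ = Additive.ofMul 1
    congr 1
    have h1 : Algebra.trace ℚ K (β * (g : K)) = n := by
      rw [← hn]
      congr 1
      simp
    rw [h1, Rat.cast_intCast, mul_comm]
    exact Complex.exp_int_mul_two_pi_mul_I n
  obtain ⟨Φ, hΦ⟩ : ∃ Φ : K → AddChar (𝓞 K ⧸ Submodule.toAddSubgroup 𝔤) ℂ, ∀ β ∈ S,
      ∀ b : 𝓞 K, Φ β (QuotientAddGroup.mk b) = (fb β b).toMul := by
    refine ⟨fun β => if h : Submodule.toAddSubgroup 𝔤 ≤ (fb β).ker then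
      AddChar.toAddMonoidHomEquiv.symm (QuotientAddGroup.lift _ (fb β) h) else 1, fun β hβ b => ?_⟩
    simp only [dif_pos (hker β hβ)]
    rfl
  have hcard : S.card ≤ Fintype.card (AddChar (𝓞 K ⧸ Submodule.toAddSubgroup 𝔤) ℂ) := by
    rw [← Finset.card_univ]
    refine Finset.card_le_card_of_injOn Φ (fun _ _ => Finset.mem_coe.mpr (Finset.mem_univ _)) ?_
    intro β hβ β' hβ' h
    refine hinj β hβ β' hβ' (fb_eq ?_)
    ext b
    have h1 := hΦ β hβ b
    rw [h, hΦ β' hβ' b] at h1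
    exact congrArg Additive.ofMul h1.symm
  rw [AddChar.card_eq, ← Nat.card_eq_fintype_card] at hcard
  rw [hidx]
  exact hcard

end Pool.Agent.H1.RK
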