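import Pool.Agent.H32.RK.TargetsB
import Pool.Agent.H37.RQ.KPB
import Pool.Agent.H49.RQ.FJB

/-!
Row PKP of the board hpk_modules: the trivial bounds.
-/

set_option autoImplicit false

open Finset NumberField Pool.Agent.H32.RQ Pool.Agent.H32.RK

namespace Pool.Agent.H1.RK

theorem pf_PKP (K : Type) [Field K] [NumberField K] : T_PKP K := by
  intro ι _ _ ω s Q J W T _ x y hJ hW hWQ hTQ hWT
  have hk := (Pool.Agent.H37.RQ.pf_KPB Pool.Agent.H49.RQ.pf_FJB Q W T hW hWQ hTQ hWT).1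
  have hr : ∀ j k : ι → ZMod Q, 0 ≤ rr ω Q J x y j k := fun j k =>
    Finset.prod_nonneg fun p _ => Finset.prod_nonneg fun l _ =>
      ((Pool.Agent.H49.RQ.pf_FJB Q J hJ).2.1 _).1
  have hkp0 : ∀ j : ι → ZMod Q, 0 ≤ kp Q W T j := fun j =>
    Finset.prod_nonneg fun m _ => (hk (j m)).1
  have hkp1 : ∀ j : ι → ZMod Q, kp Q W T j ≤ 1 := fun j =>
    Finset.prod_le_one (fun m _ => (hk (j m)).1) fun m _ => (hk (j m)).2
  unfold Pool.Agent.H32.RK.pk Pool.Agent.H32.RK.pp
  constructor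
  · refine div_nonneg (Finset.sum_nonneg fun j _ => Finset.sum_nonneg fun k _ => ?_) (by positivity)
    exact mul_nonneg (by linarith [hkp1 j]) (hr j k)
  · refine div_le_div_of_nonneg_right (Finset.sum_le_sum fun j _ => Finset.sum_le_sum fun k _ => ?_)
      (by positivity)
    have h1 := mul_nonneg (hkp0 j) (hr j k)
    linarith

end Pool.Agent.H1.RK
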