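import Pool.Agent.H32.RK.TargetsE

/-!
Row SEP of the board hpk_modules: separated sets in discs.
-/

set_option autoImplicit false

open Finset NumberField Pool.Agent.H32.RQ Pool.Agent.H32.RK

namespace Pool.Agent.H1.RK

theorem card_Icc_sym (m : ℕ) : (Finset.Icc (-(m : ℤ)) m).card = 2 * m + 1 := by
  rw [Int.card_Icc]
  omega

theorem int_sep {ρ : ℝ} (hρ : 0 < ρ) {k k' : ℤ} (h : k ≠ k') : ρ ≤ |(k : ℝ) * ρ - k' * ρ| := by
  have h1 : (1 : ℝ) ≤ |((k - k' : ℤ) : ℝ)| := by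
    rw [← Int.cast_abs]
    exact_mod_cast Int.one_le_abs (sub_ne_zero.mpr h)
  have h2 : (k : ℝ) * ρ - k' * ρ = ((k - k' : ℤ) : ℝ) * ρ := by
    push_cast
    ring
  rw [h2, abs_mul, abs_of_pos hρ]
  nlinarith

theorem abs_le_of_mem {m : ℕ} {ρ : ℝ} (hρ : 0 < ρ) {k : ℤ} (h : k ∈ Finset.Icc (-(m : ℤ)) m) :
    |(k : ℝ) * ρ| ≤ m * ρ := by
  rw [Finset.mem_Icc] at h
  have h1 : |(k : ℝ)| ≤ m := by
    rw [abs_le]
    exact ⟨by exact_mod_cast h.1, by exact_mod_cast h.2⟩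
  rw [abs_mul, abs_of_pos hρ]
  exact mul_le_mul_of_nonneg_right h1 hρ.le

theorem pf_SEP : T_SEP := by
  classical
  constructor
  · refine ⟨1, one_pos, fun h ρ hρ hρh => ?_⟩
    obtain ⟨m, hm⟩ : ∃ m : ℕ, m = ⌊h / ρ⌋₊ := ⟨_, rfl⟩
    have h0 : 0 ≤ h / ρ := div_nonneg (by linarith) hρ.le
    have h1 : (m : ℝ) ≤ h / ρ := by rw [hm]; exact Nat.floor_le h0
    have h2 : h / ρ < m + 1 := by rw [hm]; exact Nat.lt_floor_add_one _
    have hinj : Function.Injective fun k : ℤ => (k : ℝ) * ρ := by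
      intro k k' hk
      have := mul_right_cancel₀ hρ.ne' hk
      exact_mod_cast this
    refine ⟨(Finset.Icc (-(m : ℤ)) m).image fun k : ℤ => (k : ℝ) * ρ, ?_, ?_, ?_⟩
    · rw [Finset.card_image_of_injective _ hinj, card_Icc_sym, pow_one, one_mul]
      push_cast
      have : (0 : ℝ) ≤ m := Nat.cast_nonneg m
      linarith
    · intro g hg
      obtain ⟨k, hk, rfl⟩ := Finset.mem_image.mp hg
      rw [Real.norm_eq_abs]
      refine (abs_le_of_mem hρ hk).trans ?_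
      rwa [← le_div_iff₀ hρ]
    · intro g hg g' hg' hne
      obtain ⟨k, -, rfl⟩ := Finset.mem_image.mp hg
      obtain ⟨k', -, rfl⟩ := Finset.mem_image.mp hg'
      rw [Real.norm_eq_abs]
      exact int_sep hρ fun h => hne (by rw [h])
  · refine ⟨1 / 2, by norm_num, fun h ρ hρ hρh => ?_⟩
    obtain ⟨m, hm⟩ : ∃ m : ℕ, m = ⌊1 / 2 * h / ρ⌋₊ := ⟨_, rfl⟩
    have h0 : 0 ≤ 1 / 2 * h / ρ := div_nonneg (by linarith) hρ.le
    have h1 : (m : ℝ) ≤ 1 / 2 * h / ρ := by rw [hm]; exact Nat.floor_le h0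
    have h2 : 1 / 2 * h / ρ < m + 1 := by rw [hm]; exact Nat.lt_floor_add_one _
    have hm0 : (0 : ℝ) ≤ m := Nat.cast_nonneg m
    have hre : ∀ p : ℤ × ℤ, ((⟨p.1 * ρ, p.2 * ρ⟩ : ℂ)).re = p.1 * ρ := fun p => rfl
    have him : ∀ p : ℤ × ℤ, ((⟨p.1 * ρ, p.2 * ρ⟩ : ℂ)).im = p.2 * ρ := fun p => rfl
    have hinj : Function.Injective fun p : ℤ × ℤ => (⟨p.1 * ρ, p.2 * ρ⟩ : ℂ) := by
      intro p p' hp
      have e1 := congrArg Complex.re hp
      have e2 := congrArg Complex.im hp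
      simp only at e1 e2
      have f1 := mul_right_cancel₀ hρ.ne' e1
      have f2 := mul_right_cancel₀ hρ.ne' e2
      exact Prod.ext (by exact_mod_cast f1) (by exact_mod_cast f2)
    refine ⟨((Finset.Icc (-(m : ℤ)) m) ×ˢ (Finset.Icc (-(m : ℤ)) m)).image
      fun p : ℤ × ℤ => (⟨p.1 * ρ, p.2 * ρ⟩ : ℂ), ?_, ?_, ?_⟩
    · rw [Finset.card_image_of_injective _ hinj, Finset.card_product, card_Icc_sym, sq]
      push_cast
      have h3 : 1 / 2 * h / ρ ≤ 2 * m + 1 := by linarith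
      exact mul_le_mul h3 h3 h0 (by linarith)
    · intro g hg
      obtain ⟨p, hp, rfl⟩ := Finset.mem_image.mp hg
      obtain ⟨hp1, hp2⟩ := Finset.mem_product.mp hp
      have h3 := Complex.norm_le_abs_re_add_abs_im (⟨p.1 * ρ, p.2 * ρ⟩ : ℂ)
      rw [hre, him] at h3
      have h4 := abs_le_of_mem hρ hp1
      have h5 := abs_le_of_mem hρ hp2
      have h6 : (m : ℝ) * ρ ≤ 1 / 2 * h := by rwa [← le_div_iff₀ hρ]
      linarith
    · intro g hg g' hg' hne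
      obtain ⟨p, -, rfl⟩ := Finset.mem_image.mp hg
      obtain ⟨p', -, rfl⟩ := Finset.mem_image.mp hg'
      by_cases h3 : p.1 = p'.1
      · have h4 : p.2 ≠ p'.2 := fun h => hne (by rw [h3, h])
        refine (int_sep hρ h4).trans ?_
        have := Complex.abs_im_le_norm ((⟨p.1 * ρ, p.2 * ρ⟩ : ℂ) - ⟨p'.1 * ρ, p'.2 * ρ⟩)
        rwa [Complex.sub_im, him, him] at this
      · refine (int_sep hρ h3).trans ?_
        have := Complex.abs_re_le_norm ((⟨p.1 * ρ, p.2 * ρ⟩ : ℂ) - ⟨p'.1 * ρ, p'.2 * ρ⟩)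
        rwa [Complex.sub_re, hre, hre] at this

end Pool.Agent.H1.RK
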